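import Pool.Agent.Helper18.BV.St

/-! BV-4: alternating derivatives at 2 of products of real L-functions. -/

set_option autoImplicit false

open Finset
open scoped ComplexOrder ArithmeticFunction.zeta

namespace Pool.Agent.Helper79.BV

open Pool.Agent.Helper18.BV ArithmeticFunction

/-- The arithmetic function of a character. -/
noncomputable def A {q : ℕ} (χ : DirichletCharacter ℂ q) : ArithmeticFunction ℂ :=
  toArithmeticFunction (χ ·)

lemma A_apply {q : ℕ} (χ : DirichletCharacter ℂ q) {n : ℕ} (hn : n ≠ 0) :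
    A χ n = χ (n : ZMod q) := (χ.apply_eq_toArithmeticFunction_apply hn).symm

lemma A_summable {q : ℕ} (χ : DirichletCharacter ℂ q) {s : ℂ} (hs : 1 < s.re) :
    LSeriesSummable (fun n => A χ n) s :=
  (LSeriesSummable_congr _ fun h => (χ.apply_eq_toArithmeticFunction_apply h).symm).mpr <|
    DirichletCharacter.LSeriesSummable_of_one_lt_re χ hs

lemma A_LSeries {q : ℕ} [NeZero q] (χ : DirichletCharacter ℂ q) {s : ℂ} (hs : 1 < s.re) :
    LSeries (fun n => A χ n) s = DirichletCharacter.LFunction χ s := by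
  rw [DirichletCharacter.LFunction_eq_LSeries χ hs]
  exact LSeries_congr (fun h => A_apply χ h) s

lemma zetaMul_eq {q : ℕ} (χ : DirichletCharacter ℂ q) :
    χ.zetaMul = ((ζ : ArithmeticFunction ℕ) : ArithmeticFunction ℂ) * A χ := rfl

lemma zetaMul_LSeries {q : ℕ} [NeZero q] (χ : DirichletCharacter ℂ q) {s : ℂ} (hs : 1 < s.re) :
    LSeries (fun n => χ.zetaMul n) s = riemannZeta s * DirichletCharacter.LFunction χ s := by
  have hz : LSeriesSummable (fun n => ((ζ : ArithmeticFunction ℕ) : ArithmeticFunction ℂ) n) s := by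
    have h := LSeriesSummable_zeta_iff.mpr hs
    refine (LSeriesSummable_congr _ fun {n} _ => ?_).mpr h
    rw [natCoe_apply]
  have hz' : LSeries (fun n => ((ζ : ArithmeticFunction ℕ) : ArithmeticFunction ℂ) n) s =
      riemannZeta s := by
    rw [← LSeries_zeta_eq_riemannZeta hs]
    exact LSeries_congr (fun {n} _ => by rw [natCoe_apply]) s
  rw [zetaMul_eq, ArithmeticFunction.LSeries_mul' hz (A_summable χ hs), A_LSeries χ hs, hz']

/-- The general statement on Dirichlet series with nonnegative coefficients. -/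
theorem alt_of_eq (b : ArithmeticFunction ℂ) (f : ℂ → ℂ) (hb : ∀ n, 0 ≤ b n) (hb1 : b 1 = 1)
    (hsum : ∀ s : ℂ, 1 < s.re → LSeriesSummable (fun n => b n) s)
    (hf : ∀ s : ℂ, 1 < s.re → f s = LSeries (fun n => b n) s) :
    (∀ m : ℕ, 0 ≤ ((-1 : ℂ) ^ m * iteratedDeriv m f 2).re) ∧ 1 ≤ (f 2).re := by
  have habs : LSeries.abscissaOfAbsConv (fun n => b n) ≤ (1 : ℝ) :=
    LSeries.abscissaOfAbsConv_le_of_forall_lt_LSeriesSummable
      fun y hy => hsum y (by simpa using hy)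
  have hlt : LSeries.abscissaOfAbsConv (fun n => b n) < (2 : ℝ) :=
    lt_of_le_of_lt habs (by exact_mod_cast one_lt_two)
  have h2 : (2 : ℂ) ∈ {s : ℂ | 1 < s.re} := by
    simp
  have hopen : IsOpen {s : ℂ | 1 < s.re} := Complex.continuous_re.isOpen_preimage _ isOpen_Ioi
  have hEq : Set.EqOn f (LSeries (fun n => b n)) {s : ℂ | 1 < s.re} := fun s hs => hf s hs
  constructor
  · intro m
    have h3 := ArithmeticFunction.iteratedDeriv_LSeries_alternating b hb hlt m
    rw [hEq.iteratedDeriv_of_isOpen hopen m h2]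
    have h4 := (Complex.le_def.1 h3).1
    simpa using h4
  · rw [hEq h2]
    have hs2 : LSeriesSummable (fun n => b n) ((2 : ℝ) : ℂ) := hsum _ (by simp)
    have h5 : LSeries.term (fun n => b n) ((2 : ℝ) : ℂ) 1 ≤ LSeries (fun n => b n) ((2 : ℝ) : ℂ) :=
      Summable.le_tsum hs2 1 (fun n _ => LSeries.term_nonneg (hb n) 2)
    have h6 : LSeries.term (fun n => b n) ((2 : ℝ) : ℂ) 1 = 1 := by
      rw [LSeries.term_of_ne_zero one_ne_zero]
      simp [hb1]
    rw [h6] at h5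
    have h7 := (Complex.le_def.1 h5).1
    simpa using h7

theorem altOne : AltOne := by
  intro q _ χ hχ
  have h := alt_of_eq χ.zetaMul (fun s => riemannZeta s * DirichletCharacter.LFunction χ s)
    (DirichletCharacter.zetaMul_nonneg hχ) χ.isMultiplicative_zetaMul.map_one
    (fun s hs => χ.LSeriesSummable_zetaMul hs) (fun s hs => (zetaMul_LSeries χ hs).symm)
  exact h

/-- The twist of `1 * χ₁` by `χ₂`. -/
lemma twist_apply {q₁ q₂ q₃ : ℕ} (χ₁ : DirichletCharacter ℂ q₁)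
    (χ₂ : DirichletCharacter ℂ q₂) (χ₃ : DirichletCharacter ℂ q₃)
    (h3 : ∀ n : ℕ, χ₃ (n : ZMod q₃) = χ₁ (n : ZMod q₁) * χ₂ (n : ZMod q₂)) (n : ℕ) :
    (A χ₂ * A χ₃) n = χ₂ (n : ZMod q₂) * χ₁.zetaMul n := by
  rw [zetaMul_eq, mul_apply, mul_apply, Finset.mul_sum]
  apply Finset.sum_congr rfl
  intro x hx
  rw [Nat.mem_divisorsAntidiagonal] at hx
  have h0 : x.1 * x.2 ≠ 0 := by
    rw [hx.1]
    exact hx.2
  have h1 : x.1 ≠ 0 := left_ne_zero_of_mul h0
  have h2 : x.2 ≠ 0 := right_ne_zero_of_mul h0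
  rw [A_apply χ₂ h1, A_apply χ₃ h2, A_apply χ₁ h2, h3, ← hx.1, natCoe_apply, zeta_apply_ne h1]
  push_cast
  rw [map_mul]
  ring

lemma chi_cases {q : ℕ} {χ : DirichletCharacter ℂ q} (hχ : χ ^ 2 = 1) (n : ℕ) :
    χ (n : ZMod q) = 0 ∨ χ (n : ZMod q) = 1 ∨ χ (n : ZMod q) = -1 :=
  MulChar.isQuadratic_iff_sq_eq_one.mpr hχ n

lemma twist_prime_pow_nonneg {q₁ q₂ : ℕ} {χ₁ : DirichletCharacter ℂ q₁}
    {χ₂ : DirichletCharacter ℂ q₂} (h1 : χ₁ ^ 2 = 1) (h2 : χ₂ ^ 2 = 1) {p : ℕ} (hp : p.Prime)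
    (h : χ₁ (p : ZMod q₁) = -1 ∨ 0 ≤ χ₂ (p : ZMod q₂)) (j : ℕ) :
    0 ≤ χ₂ ((p ^ j : ℕ) : ZMod q₂) * χ₁.zetaMul (p ^ j) := by
  rcases h with h | h
  · have h3 : χ₁.zetaMul (p ^ j) = if Even (j + 1) then 0 else 1 := by
      rw [zetaMul_eq, coe_zeta_mul_apply, Nat.sum_divisors_prime_pow hp, ← neg_one_geom_sum]
      apply Finset.sum_congr rfl
      intro i _
      rw [A_apply χ₁ (pow_ne_zero i hp.ne_zero), Nat.cast_pow, map_pow, h]
    rw [h3]
    split_ifs with h4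
    · simp
    · rw [mul_one]
      have h5 : Even j := by
        rw [Nat.even_add_one, not_not] at h4
        exact h4
      obtain ⟨m, rfl⟩ := h5
      rw [← two_mul, Nat.cast_pow, map_pow, pow_mul]
      apply pow_nonneg
      rcases chi_cases h2 p with h6 | h6 | h6 <;> rw [h6] <;> simp
  · rw [Nat.cast_pow, map_pow]
    exact mul_nonneg (pow_nonneg h j) (DirichletCharacter.zetaMul_nonneg h1 _)

lemma conv_prime_pow_nonneg {q₁ q₂ q₃ : ℕ} {χ₁ : DirichletCharacter ℂ q₁}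
    {χ₂ : DirichletCharacter ℂ q₂} {χ₃ : DirichletCharacter ℂ q₃} (h1 : χ₁ ^ 2 = 1)
    (h2 : χ₂ ^ 2 = 1)
    (h3 : ∀ n : ℕ, χ₃ (n : ZMod q₃) = χ₁ (n : ZMod q₁) * χ₂ (n : ZMod q₂)) {p : ℕ} (hp : p.Prime)
    (h : χ₁ (p : ZMod q₁) = -1 ∨ 0 ≤ χ₂ (p : ZMod q₂)) (k : ℕ) :
    0 ≤ (χ₁.zetaMul * (A χ₂ * A χ₃)) (p ^ k) := by
  rw [mul_apply]
  apply Finset.sum_nonneg
  intro x hx
  rw [Nat.mem_divisorsAntidiagonal] at hx
  have h4 : x.2 ∣ p ^ k := ⟨x.1, by rw [mul_comm]; exact hx.1.symm⟩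
  obtain ⟨j, -, hj⟩ := (Nat.dvd_prime_pow hp).1 h4
  rw [hj, twist_apply χ₁ χ₂ χ₃ h3]
  exact mul_nonneg (DirichletCharacter.zetaMul_nonneg h1 _)
    (twist_prime_pow_nonneg h1 h2 hp h j)

theorem altProd : AltProd := by
  intro q₁ q₂ q₃ _ _ _ χ₁ χ₂ χ₃ h1 h2 h3
  set b : ArithmeticFunction ℂ := χ₁.zetaMul * (A χ₂ * A χ₃) with hbdef
  have hb' : b = χ₂.zetaMul * (A χ₁ * A χ₃) := by
    rw [hbdef, zetaMul_eq, zetaMul_eq]
    ring
  have hmul : b.IsMultiplicative :=
    χ₁.isMultiplicative_zetaMul.mul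
      ((DirichletCharacter.isMultiplicative_toArithmeticFunction χ₂).mul
        (DirichletCharacter.isMultiplicative_toArithmeticFunction χ₃))
  have hpp : ∀ (p k : ℕ), p.Prime → 0 ≤ b (p ^ k) := by
    intro p k hp
    by_cases h : χ₁ (p : ZMod q₁) = -1 ∨ 0 ≤ χ₂ (p : ZMod q₂)
    · exact conv_prime_pow_nonneg h1 h2 h3 hp h k
    · rw [not_or] at h
      have h4 : χ₂ (p : ZMod q₂) = -1 := by
        rcases chi_cases h2 p with h6 | h6 | h6
        · exact absurd (by rw [h6]) h.2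
        · exact absurd (by rw [h6]; exact zero_le_one) h.2
        · exact h6
      rw [hb']
      exact conv_prime_pow_nonneg h2 h1 (fun n => by rw [h3, mul_comm]) hp (Or.inl h4) k
  have hb : ∀ n, 0 ≤ b n := by
    intro n
    rcases eq_or_ne n 0 with rfl | hn
    · simp only [ArithmeticFunction.map_zero, le_refl]
    · rw [hmul.multiplicative_factorization _ hn]
      exact Finset.prod_nonneg fun p hp =>
        hpp p _ (Nat.prime_of_mem_primeFactors hp)
  have h := alt_of_eq b (fun s => riemannZeta s *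
      DirichletCharacter.LFunction χ₁ s * DirichletCharacter.LFunction χ₂ s *
      DirichletCharacter.LFunction χ₃ s) hb hmul.map_one
    (fun s hs => LSeriesSummable_mul (χ₁.LSeriesSummable_zetaMul hs)
      (LSeriesSummable_mul (A_summable χ₂ hs) (A_summable χ₃ hs)))
    (fun s hs => by
      rw [hbdef, ArithmeticFunction.LSeries_mul' (χ₁.LSeriesSummable_zetaMul hs)
        (LSeriesSummable_mul (A_summable χ₂ hs) (A_summable χ₃ hs)),
        ArithmeticFunction.LSeries_mul' (A_summable χ₂ hs) (A_summable χ₃ hs),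
        A_LSeries χ₂ hs, A_LSeries χ₃ hs, zetaMul_LSeries χ₁ hs]
      ring)
  exact h

end Pool.Agent.Helper79.BV
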